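import Pool.Agent.Y772.ND.Stm3

/-!
# Ideals of prime norm and residue maps (P_CNT), project DZ of helper772
-/

set_option autoImplicit false

namespace Pool.Agent.Y941.ND

open NumberField

theorem t_CNT : Pool.Agent.Y772.ND.P_CNT := by
  intro K _ _ p hp
  haveI : Fact p.Prime := ⟨hp⟩
  symm
  have hker : ∀ φ : 𝓞 K →+* ZMod p, Ideal.absNorm (RingHom.ker φ) = p := by
    intro φ
    have e := RingHom.quotientKerEquivOfSurjective (ZMod.ringHom_surjective φ)
    rw [Ideal.absNorm_apply, Submodule.cardQuot_apply]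
    exact (Nat.card_congr e.toEquiv).trans (Nat.card_zmod p)
  refine Nat.card_congr (Equiv.ofBijective (fun φ => ⟨RingHom.ker φ, hker φ⟩) ⟨?_, ?_⟩)
  · intro φ ψ h
    have hk : RingHom.ker φ = RingHom.ker ψ := congrArg Subtype.val h
    ext x
    have h1 : x - ((ψ x).val : 𝓞 K) ∈ RingHom.ker ψ := by
      rw [RingHom.mem_ker, map_sub, map_natCast, ZMod.natCast_zmod_val, sub_self]
    rw [← hk, RingHom.mem_ker, map_sub, map_natCast, ZMod.natCast_zmod_val, sub_eq_zero] at h1
    exact h1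
  · rintro ⟨P, hP⟩
    have hc : Nat.card (𝓞 K ⧸ P) = p := by
      rw [Ideal.absNorm_apply, Submodule.cardQuot_apply] at hP
      exact hP
    haveI : Finite (𝓞 K ⧸ P) := Nat.finite_of_card_ne_zero (by rw [hc]; exact hp.ne_zero)
    haveI : Fintype (𝓞 K ⧸ P) := Fintype.ofFinite _
    let e : ZMod p ≃+* (𝓞 K ⧸ P) := ZMod.ringEquivOfPrime (𝓞 K ⧸ P) hp
      (by rw [← Nat.card_eq_fintype_card]; exact hc)
    refine ⟨(e.symm : (𝓞 K ⧸ P) →+* ZMod p).comp (Ideal.Quotient.mk P), ?_⟩
    apply Subtype.ext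
    change RingHom.ker ((e.symm : (𝓞 K ⧸ P) →+* ZMod p).comp (Ideal.Quotient.mk P)) = P
    ext x
    rw [RingHom.mem_ker, RingHom.comp_apply]
    constructor
    · intro h
      have h2 : (Ideal.Quotient.mk P) x = 0 := by
        apply e.symm.injective
        rw [map_zero]
        exact h
      exact Ideal.Quotient.eq_zero_iff_mem.1 h2
    · intro h
      rw [Ideal.Quotient.eq_zero_iff_mem.2 h, map_zero]

end Pool.Agent.Y941.ND
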